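import Pool.Agent.Helper93.KS.St

/-!
# Project KS, module PRQ: pairs of primes of a box
-/

set_option autoImplicit false

noncomputable section

namespace Pool.Agent.Helper32.KS

open Finset Filter Topology
open Pool.Agent.Helper93.KS
open Pool.Agent.Helper15.AB (ee Kl StDB StMT)
open Pool.Agent.Helper9.TW (gm Qs fm StMER StC9)
open Pool.Agent.Helper18.TR (StLevel)
open Pool.Agent.Helper93.KP (gk vk tk rn gn TK qk StC8P StVLP StRTS StWEI)

private theorem sq_split (B : Finset ℕ) (f : ℕ → ℝ) :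
    (∑ p ∈ B, f p) ^ 2 = 2 * ∑ p ∈ B, ∑ p' ∈ B, (if p < p' then f p * f p' else 0) +
      ∑ p ∈ B, f p ^ 2 := by
  have h1 : (∑ p ∈ B, f p) ^ 2 = ∑ p ∈ B, ∑ p' ∈ B, f p * f p' := by
    rw [sq, sum_mul_sum]
  have h2 : ∀ p ∈ B, ∀ p' ∈ B, f p * f p' = (if p < p' then f p * f p' else 0) +
      (if p' < p then f p' * f p else 0) + (if p = p' then f p * f p' else 0) := by
    intro p _ p' _
    rcases lt_trichotomy p p' with h | h | h
    · rw [if_pos h, if_neg (by omega), if_neg (by omega)]; ring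
    · subst h
      simp
    · rw [if_neg (by omega), if_pos h, if_neg (by omega)]; ring
  have h3 : ∑ p ∈ B, ∑ p' ∈ B, (if p' < p then f p' * f p else 0) =
      ∑ p ∈ B, ∑ p' ∈ B, (if p < p' then f p * f p' else 0) := sum_comm
  have h4 : ∑ p ∈ B, ∑ p' ∈ B, (if p = p' then f p * f p' else 0) = ∑ p ∈ B, f p ^ 2 := by
    refine sum_congr rfl fun p hp => ?_
    rw [sum_ite_eq B p (fun p' => f p * f p'), if_pos hp, sq]
  rw [h1, sum_congr rfl fun p hp => sum_congr rfl (h2 p hp)]
  simp only [sum_add_distrib]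
  rw [h3, h4]
  ring

private theorem bq_mem {a : ℕ} {ω : ℝ} {i p : ℕ} (h : p ∈ bq a ω i) :
    p.Prime ∧ (p : ℝ) < (a : ℝ) ^ (((i : ℝ) + 1) * ω) := by
  unfold bq at h
  rw [mem_filter, mem_range, Nat.lt_ceil] at h
  exact ⟨h.2.1, h.1⟩

private theorem sum_prq (a : ℕ) (ω : ℝ) (j : ℕ) (t : Finset ℕ) (F : ℕ → ℝ) :
    ∑ q ∈ t, prq a ω j q * F q = ∑ p ∈ bq a ω j, ∑ p' ∈ bq a ω j,
      (if p < p' then (if p * p' ∈ t then F (p * p') else 0) else 0) := by
  classical
  have h1 : ∑ q ∈ t, prq a ω j q * F q = ∑ q ∈ t.filter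
      (fun q => ∃ p ∈ bq a ω j, ∃ p' ∈ bq a ω j, p < p' ∧ q = p * p'), F q := by
    rw [sum_filter]
    refine sum_congr rfl fun q _ => ?_
    unfold prq
    by_cases h : ∃ p ∈ bq a ω j, ∃ p' ∈ bq a ω j, p < p' ∧ q = p * p'
    · rw [if_pos h, if_pos h, one_mul]
    · rw [if_neg h, if_neg h, zero_mul]
  have h2 : t.filter (fun q => ∃ p ∈ bq a ω j, ∃ p' ∈ bq a ω j, p < p' ∧ q = p * p') =
      ((bq a ω j ×ˢ bq a ω j).filter (fun x => x.1 < x.2 ∧ x.1 * x.2 ∈ t)).image
        (fun x => x.1 * x.2) := by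
    ext q
    rw [mem_filter, mem_image]
    constructor
    · rintro ⟨hq, p, hp, p', hp', hlt, rfl⟩
      exact ⟨(p, p'), by rw [mem_filter, mem_product]; exact ⟨⟨hp, hp'⟩, hlt, hq⟩, rfl⟩
    · rintro ⟨⟨p, p'⟩, hx, rfl⟩
      rw [mem_filter, mem_product] at hx
      obtain ⟨⟨hp, hp'⟩, hlt, hq⟩ := hx
      exact ⟨hq, p, hp, p', hp', hlt, rfl⟩
  have h3 : Set.InjOn (fun x : ℕ × ℕ => x.1 * x.2)
      ((bq a ω j ×ˢ bq a ω j).filter (fun x => x.1 < x.2 ∧ x.1 * x.2 ∈ t) :
        Finset (ℕ × ℕ)) := by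
    rintro ⟨p, p'⟩ hx ⟨r, r'⟩ hy h
    rw [mem_coe, mem_filter, mem_product] at hx hy
    obtain ⟨⟨hp, hp'⟩, hlt1, -⟩ := hx
    obtain ⟨⟨hr, hr'⟩, hlt2, -⟩ := hy
    simp only at hp hp' hlt1 hr hr' hlt2 h
    have P := (bq_mem hp).1
    have P' := (bq_mem hp').1
    have R := (bq_mem hr).1
    have R' := (bq_mem hr').1
    have h4 : p ∣ r * r' := h ▸ dvd_mul_right p p'
    rcases P.dvd_mul.1 h4 with h5 | h5
    · have h6 := (Nat.prime_dvd_prime_iff_eq P R).1 h5
      subst h6
      have h7 := Nat.eq_of_mul_eq_mul_left P.pos h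
      rw [h7]
    · have h6 := (Nat.prime_dvd_prime_iff_eq P R').1 h5
      subst h6
      have h7 : p' = r := by
        rw [mul_comm] at h
        exact Nat.eq_of_mul_eq_mul_right P.pos h
      omega
  rw [h1, h2, sum_image h3, sum_filter, sum_product]
  refine sum_congr rfl fun p _ => sum_congr rfl fun p' _ => ?_
  by_cases hlt : p < p'
  · by_cases hq : p * p' ∈ t
    · rw [if_pos ⟨hlt, hq⟩, if_pos hlt, if_pos hq]
    · rw [if_neg (fun h => hq h.2), if_pos hlt, if_neg hq]
  · rw [if_neg (fun h => hlt h.1), if_neg hlt]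

theorem hPRQ : StPRQ := by
  classical
  intro a j0 j ω x g ha hω hj hx hx2 hg
  have ha1 : (1 : ℝ) ≤ a := by exact_mod_cast (by omega : 1 ≤ a)
  have ha0 : (0 : ℝ) < a := by linarith
  -- products of two primes of the box
  have hprod : ∀ p ∈ bq a ω j, ∀ p' ∈ bq a ω j, ((p * p' : ℕ) : ℝ) ≤ (a : ℝ) ^ x := by
    intro p hp p' hp'
    have h1 := (bq_mem hp).2.le
    have h2 := (bq_mem hp').2.le
    have h3 : ((p * p' : ℕ) : ℝ) ≤ (a : ℝ) ^ (((j : ℝ) + 1) * ω) *
        (a : ℝ) ^ (((j : ℝ) + 1) * ω) := by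
      push_cast
      exact mul_le_mul h1 h2 (Nat.cast_nonneg _) (by positivity)
    rw [← Real.rpow_add ha0, ← two_mul] at h3
    exact h3.trans (Real.rpow_le_rpow_of_exponent_le ha1 hx)
  have hmem : ∀ p ∈ bq a ω j, ∀ p' ∈ bq a ω j, p * p' ∈ range (a ^ 2 + 1) := by
    intro p hp p' hp'
    have h1 := (hprod p hp p' hp').trans (Real.rpow_le_rpow_of_exponent_le ha1 hx2)
    have h2 : (a : ℝ) ^ (2 : ℝ) = ((a ^ 2 : ℕ) : ℝ) := by
      rw [show (2 : ℝ) = ((2 : ℕ) : ℝ) by norm_num, Real.rpow_natCast]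
      push_cast
      rfl
    rw [h2] at h1
    rw [mem_range, Nat.lt_succ_iff]
    exact_mod_cast h1
  refine ⟨?_, ?_, ?_⟩
  · intro q
    unfold prq
    by_cases h : ∃ p ∈ bq a ω j, ∃ p' ∈ bq a ω j, p < p' ∧ q = p * p'
    · rw [if_pos h]
      refine ⟨by rw [abs_one], fun _ => ?_⟩
      obtain ⟨p, hp, p', hp', hlt, rfl⟩ := h
      have P := (bq_mem hp).1
      have P' := (bq_mem hp').1
      refine ⟨?_, ?_, hprod p hp p' hp'⟩
      · rw [Nat.squarefree_mul ((Nat.coprime_primes P P').2 hlt.ne)]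
        exact ⟨P.squarefree, P'.squarefree⟩
      · intro l hl hd
        have hin : j ∈ Ico j0 (j + 1) := by
          rw [mem_Ico]
          omega
        unfold Pq
        rw [mem_biUnion]
        refine ⟨j, hin, ?_⟩
        rcases hl.dvd_mul.1 hd with h5 | h5
        · rw [(Nat.prime_dvd_prime_iff_eq hl P).1 h5]; exact hp
        · rw [(Nat.prime_dvd_prime_iff_eq hl P').1 h5]; exact hp'
    · rw [if_neg h]
      refine ⟨by rw [abs_zero]; exact zero_le_one, fun h' => absurd rfl h'⟩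
  · have h0 := sq_split (bq a ω j) g
    have h1 : mg a g (prq a ω j) = ∑ p ∈ bq a ω j, ∑ p' ∈ bq a ω j,
        (if p < p' then g p * g p' else 0) := by
      unfold mg
      rw [sum_prq]
      refine sum_congr rfl fun p hp => sum_congr rfl fun p' hp' => ?_
      by_cases hlt : p < p'
      · rw [if_pos hlt, if_pos hlt, if_pos (hmem p hp p' hp')]
        have P := (bq_mem hp).1
        have P' := (bq_mem hp').1
        rw [Nat.Coprime.primeFactors_mul ((Nat.coprime_primes P P').2 hlt.ne),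
          P.primeFactors, P'.primeFactors, prod_union, prod_singleton, prod_singleton]
        rw [disjoint_singleton]
        exact hlt.ne
      · rw [if_neg hlt, if_neg hlt]
    have h2 : 0 ≤ ∑ p ∈ bq a ω j, g p ^ 2 := sum_nonneg fun p _ => sq_nonneg _
    unfold Gb
    rw [h1]
    linarith
  · intro m hm
    have h0 := sq_split ((bq a ω j).filter (fun p => p ∣ m)) (fun _ => (1 : ℝ))
    have h1 := sum_prq a ω j m.divisors (fun _ => (1 : ℝ))
    simp only [mul_one] at h1
    have h2 : ∑ p ∈ bq a ω j, ∑ p' ∈ bq a ω j,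
        (if p < p' then (if p * p' ∈ m.divisors then (1 : ℝ) else 0) else 0) =
        ∑ p ∈ (bq a ω j).filter (fun p => p ∣ m), ∑ p' ∈ (bq a ω j).filter (fun p => p ∣ m),
        (if p < p' then (1 : ℝ) * 1 else 0) := by
      rw [sum_filter]
      refine sum_congr rfl fun p hp => ?_
      by_cases hpm : p ∣ m
      · rw [if_pos hpm, sum_filter]
        refine sum_congr rfl fun p' hp' => ?_
        by_cases hpm' : p' ∣ m
        · rw [if_pos hpm']
          by_cases hlt : p < p'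
          · have hd : p * p' ∈ m.divisors := by
              rw [Nat.mem_divisors]
              exact ⟨Nat.Coprime.mul_dvd_of_dvd_of_dvd
                ((Nat.coprime_primes (bq_mem hp).1 (bq_mem hp').1).2 hlt.ne) hpm hpm', by omega⟩
            rw [if_pos hlt, if_pos hlt, if_pos hd, mul_one]
          · rw [if_neg hlt, if_neg hlt]
        · rw [if_neg hpm']
          by_cases hlt : p < p'
          · rw [if_pos hlt, if_neg]
            intro h
            exact hpm' ((dvd_mul_left p' p).trans (Nat.dvd_of_mem_divisors h))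
          · rw [if_neg hlt]
      · rw [if_neg hpm]
        refine sum_eq_zero fun p' _ => ?_
        by_cases hlt : p < p'
        · rw [if_pos hlt, if_neg]
          intro h
          exact hpm ((dvd_mul_right p p').trans (Nat.dvd_of_mem_divisors h))
        · rw [if_neg hlt]
    rw [h1, h2]
    have hcard : ∑ _p ∈ (bq a ω j).filter (fun p => p ∣ m), (1 : ℝ) = (ejq a ω j m : ℝ) := by
      rw [sum_const, nsmul_eq_mul, mul_one]
      rfl
    simp only [one_pow] at h0
    rw [hcard] at h0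
    linear_combination (-1 / 2 : ℝ) * h0

end Pool.Agent.Helper32.KS
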